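import Pool.Agent.TH880.N4.Bi
import Pool.Agent.TH306.N4.Stmts

/-! S0 of N4: the sections of `m L` form a graded ring of finite type functions. -/

set_option autoImplicit false

open MvPolynomial Filter Topology

namespace Pool.Agent.TH880.N4

open Pool.Agent.TH279.GR Pool.Agent.TH306.N4

variable {a b : ℕ} {FF : Type} [Field FF] [Algebra ℂ FF] {π : Co a b →ₐ[ℂ] FF}

theorem TT_add (u v u' v' : ℕ) : TT π (u + u') (v + v') = TT π u v * TT π u' v' := by
  unfold TT
  rw [bh_add, Submodule.map_mul]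

/-- twisting -/
theorem Sec_all {m c : ℕ} {ψ : FF} (h : ∀ f ∈ TT π c (c + m), ψ * f ∈ TT π (c + m) c) {u v : ℕ} (hu : c ≤ u)
    (hv : c ≤ v) : ∀ f ∈ TT π u (v + m), ψ * f ∈ TT π (u + m) v := by
  obtain ⟨d, rfl⟩ := Nat.exists_eq_add_of_le hu
  obtain ⟨e, rfl⟩ := Nat.exists_eq_add_of_le hv
  intro f hf
  have e1 : c + e + m = (c + m) + e := by ring
  have e2 : c + d + m = (c + m) + d := by ring
  rw [e1, TT_add] at hf
  rw [e2, TT_add]
  induction hf using Submodule.mul_induction_on' with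
  | mem_mul_mem x hx y hy =>
    rw [← mul_assoc]
    exact Submodule.mul_mem_mul (h x hx) hy
  | add x _ y _ hx hy =>
    rw [mul_add]
    exact add_mem hx hy

theorem pi_x {P : Ideal (Co a b)} {i : Fin (a + 1)} {j : Fin (b + 1)} (hM : Mod P i j π) :
    π (X (Sum.inl i)) = 1 := by
  have : π (X (Sum.inl i) - 1) = 0 := (hM.ker _).2 (Ideal.mem_sup_right (x_mem_ch0 (j₀ := j)))
  rwa [map_sub, map_one, sub_eq_zero] at this

theorem pi_y {P : Ideal (Co a b)} {i : Fin (a + 1)} {j : Fin (b + 1)} (hM : Mod P i j π) :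
    π (X (Sum.inr j)) = 1 := by
  have : π (X (Sum.inr j) - 1) = 0 := (hM.ker _).2 (Ideal.mem_sup_right (y_mem_ch0 (i₀ := i)))
  rwa [map_sub, map_one, sub_eq_zero] at this

theorem one_mem_TT {P : Ideal (Co a b)} {i : Fin (a + 1)} {j : Fin (b + 1)} (hM : Mod P i j π) (u v : ℕ) :
    (1 : FF) ∈ TT π u v := by
  refine ⟨X (Sum.inl i) ^ u * X (Sum.inr j) ^ v, ?_, ?_⟩
  · have := bh_mul (pow_mem_bh (X0_mem (a := a) (b := b) i) u) (pow_mem_bh (Y0_mem (a := a) (b := b) j) v)
    simpa using this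
  · show π (X (Sum.inl i) ^ u * X (Sum.inr j) ^ v) = 1
    rw [map_mul, map_pow, map_pow, pi_x hM, pi_y hM, one_pow, one_pow, one_mul]

theorem s0 : S0 := by
  intro a b P i j FF _ _ π hM m
  refine ⟨fun ψ => ⟨fun h => ?_, fun h => Submodule.subset_span h⟩, ?_, ?_⟩
  · -- `Sec` is closed under linear combinations
    let S : Submodule ℂ FF :=
      { carrier := {ψ | Sec π m ψ}
        add_mem' := by
          rintro ψ ψ' ⟨c, hc⟩ ⟨c', hc'⟩
          refine ⟨c + c', fun f hf => ?_⟩
          rw [add_mul]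
          exact add_mem (Sec_all hc (by omega) (by omega) f hf) (Sec_all hc' (by omega) (by omega) f hf)
        zero_mem' := ⟨0, fun f _ => by rw [zero_mul]; exact zero_mem _⟩
        smul_mem' := by
          rintro z ψ ⟨c, hc⟩
          refine ⟨c, fun f hf => ?_⟩
          rw [smul_mul_assoc]
          exact Submodule.smul_mem _ _ (hc f hf) }
    have hle : SecM π m ≤ S := Submodule.span_le.2 fun ψ hψ => hψ
    exact hle h
  · rintro ψ ⟨c, hc⟩ m' ψ' ⟨c', hc'⟩
    refine ⟨c + c', fun f hf => ?_⟩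
    have e1 : c + c' + (m + m') = (c + c' + m) + m' := by ring
    rw [e1] at hf
    have h1 := Sec_all hc' (u := c + c') (v := c + c' + m) (by omega) (by omega) f hf
    have e2 : c + c' + (m + m') = (c + c' + m') + m := by ring
    rw [e2, mul_assoc]
    have h2 := Sec_all hc (u := c + c' + m') (v := c + c') (by omega) (by omega) _ h1
    exact h2
  · rintro ψ ⟨c, hc⟩
    have h1 := hc 1 (one_mem_TT hM _ _)
    rw [mul_one] at h1
    obtain ⟨F, -, hF⟩ := h1
    exact ⟨F, hF⟩

end Pool.Agent.TH880.N4
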