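import Pool.Agent.TH880.N4.Core
import Pool.Agent.TH306.N4.Defs
import Pool.Agent.W601.Curve.Step

/-! M6 of N4: bihomogeneous polynomials and the chart `x_0 = y_0 = 1`. -/

set_option autoImplicit false

open MvPolynomial Filter Topology

namespace Pool.Agent.TH880.N4

open Pool.Agent.TH279.GR Pool.Agent.TH306.N4

variable {a b : ℕ}

/-- the weight of a monomial -/
theorem weight_wt (d : Ix a b →₀ ℕ) :
    Finsupp.weight (wt a b) d = (∑ i, d (Sum.inl i), ∑ j, d (Sum.inr j)) := by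
  rw [Finsupp.weight_apply, Finsupp.sum_fintype _ _ (fun i => by simp), Fintype.sum_sum_type]
  apply Prod.ext
  · simp only [Prod.fst_add, Prod.fst_sum]
    simp [wt]
  · simp only [Prod.snd_add, Prod.snd_sum]
    simp [wt]

theorem mem_bh {u v : ℕ} {f : Co a b} : f ∈ bh a b u v ↔
    ∀ d, coeff d f ≠ 0 → (∑ i, d (Sum.inl i) = u ∧ ∑ j, d (Sum.inr j) = v) := by
  unfold bh
  rw [mem_weightedHomogeneousSubmodule]
  unfold IsWeightedHomogeneous
  constructor
  · intro h d hd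
    have := h hd
    rw [weight_wt, Prod.mk.injEq] at this
    exact this
  · intro h d hd
    rw [weight_wt, Prod.mk.injEq]
    exact h d hd

theorem bh_mul {u v u' v' : ℕ} {f g : Co a b} (hf : f ∈ bh a b u v) (hg : g ∈ bh a b u' v') :
    f * g ∈ bh a b (u + u') (v + v') := by
  unfold bh at *
  rw [mem_weightedHomogeneousSubmodule] at *
  exact hf.mul hg

theorem X0_mem (i : Fin (a + 1)) : (X (Sum.inl i) : Co a b) ∈ bh a b 1 0 := by
  unfold bh
  rw [mem_weightedHomogeneousSubmodule]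
  exact isWeightedHomogeneous_X ℂ (wt a b) (Sum.inl i)

theorem Y0_mem (j : Fin (b + 1)) : (X (Sum.inr j) : Co a b) ∈ bh a b 0 1 := by
  unfold bh
  rw [mem_weightedHomogeneousSubmodule]
  exact isWeightedHomogeneous_X ℂ (wt a b) (Sum.inr j)

theorem C_mem (c : ℂ) : (C c : Co a b) ∈ bh a b 0 0 := by
  unfold bh
  rw [mem_weightedHomogeneousSubmodule]
  exact isWeightedHomogeneous_C (wt a b) c

theorem pow_mem_bh {u v : ℕ} {f : Co a b} (hf : f ∈ bh a b u v) (k : ℕ) : f ^ k ∈ bh a b (k * u) (k * v) := by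
  induction k with
  | zero => simpa using C_mem (a := a) (b := b) 1
  | succ k ih =>
    rw [pow_succ, add_mul, add_mul, one_mul, one_mul]
    exact bh_mul ih hf

/-- scaling -/
theorem aeval_scale {R : Type*} [CommRing R] [Algebra ℂ R] (z : Ix a b → R) (l m : R) {u v : ℕ} {f : Co a b}
    (hf : f ∈ bh a b u v) :
    aeval (Sum.elim (fun i => l * z (Sum.inl i)) (fun j => m * z (Sum.inr j)) : Ix a b → R) f =
      l ^ u * m ^ v * aeval z f := by
  rw [aeval_def, aeval_def, eval₂_eq', eval₂_eq', Finset.mul_sum]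
  refine Finset.sum_congr rfl fun d hd => ?_
  obtain ⟨h1, h2⟩ := mem_bh.1 hf d (mem_support_iff.1 hd)
  rw [Fintype.prod_sum_type, Fintype.prod_sum_type]
  simp only [Sum.elim_inl, Sum.elim_inr, mul_pow, Finset.prod_mul_distrib]
  rw [Finset.prod_pow_eq_pow_sum, Finset.prod_pow_eq_pow_sum, h1, h2]
  ring

theorem bh_succ_left {u v : ℕ} : bh a b (u + 1) v ≤ bh a b 1 0 * bh a b u v := by
  intro f hf
  rw [f.as_sum]
  refine Submodule.sum_mem _ fun d hd => ?_
  obtain ⟨h1, h2⟩ := mem_bh.1 hf d (mem_support_iff.1 hd)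
  obtain ⟨i, hi⟩ : ∃ i : Fin (a + 1), 1 ≤ d (Sum.inl i) := by
    by_contra hcon
    push Not at hcon
    have : ∑ i, d (Sum.inl i) = 0 := Finset.sum_eq_zero fun i _ => by have := hcon i; omega
    omega
  have hle : Finsupp.single (Sum.inl i) 1 ≤ d := Finsupp.single_le_iff.2 hi
  obtain ⟨e, he⟩ : ∃ e : Ix a b →₀ ℕ, e = d - Finsupp.single (Sum.inl i) 1 := ⟨_, rfl⟩
  have hd' : Finsupp.single (Sum.inl i) 1 + e = d := by rw [he]; exact add_tsub_cancel_of_le hle
  have hm : monomial d (coeff d f) = X (Sum.inl i) * monomial e (coeff d f) := by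
    rw [X, monomial_mul, one_mul, hd']
  rw [hm]
  refine Submodule.mul_mem_mul (X0_mem i) ?_
  unfold bh
  rw [mem_weightedHomogeneousSubmodule]
  apply isWeightedHomogeneous_monomial
  have hw : Finsupp.weight (wt a b) d = (u + 1, v) := by rw [weight_wt, h1, h2]
  rw [← hd', map_add, Finsupp.weight_single] at hw
  have h3 := congrArg Prod.fst hw
  have h4 := congrArg Prod.snd hw
  simp [wt] at h3 h4
  apply Prod.ext
  · show (Finsupp.weight (wt a b) e).1 = u
    have e1 : (Finsupp.weight (wt a b) e).1 = ((Finsupp.weight (Sum.elim (fun _ => ((1 : ℕ), (0 : ℕ))) fun _ => ((0 : ℕ), (1 : ℕ)))) e).1 := rfl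
    omega
  · show (Finsupp.weight (wt a b) e).2 = v
    have e1 : (Finsupp.weight (wt a b) e).2 = ((Finsupp.weight (Sum.elim (fun _ => ((1 : ℕ), (0 : ℕ))) fun _ => ((0 : ℕ), (1 : ℕ)))) e).2 := rfl
    omega

theorem bh_succ_right {u v : ℕ} : bh a b u (v + 1) ≤ bh a b 0 1 * bh a b u v := by
  intro f hf
  rw [f.as_sum]
  refine Submodule.sum_mem _ fun d hd => ?_
  obtain ⟨h1, h2⟩ := mem_bh.1 hf d (mem_support_iff.1 hd)
  obtain ⟨i, hi⟩ : ∃ i : Fin (b + 1), 1 ≤ d (Sum.inr i) := by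
    by_contra hcon
    push Not at hcon
    have : ∑ i, d (Sum.inr i) = 0 := Finset.sum_eq_zero fun i _ => by have := hcon i; omega
    omega
  have hle : Finsupp.single (Sum.inr i) 1 ≤ d := Finsupp.single_le_iff.2 hi
  obtain ⟨e, he⟩ : ∃ e : Ix a b →₀ ℕ, e = d - Finsupp.single (Sum.inr i) 1 := ⟨_, rfl⟩
  have hd' : Finsupp.single (Sum.inr i) 1 + e = d := by rw [he]; exact add_tsub_cancel_of_le hle
  have hm : monomial d (coeff d f) = X (Sum.inr i) * monomial e (coeff d f) := by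
    rw [X, monomial_mul, one_mul, hd']
  rw [hm]
  refine Submodule.mul_mem_mul (Y0_mem i) ?_
  unfold bh
  rw [mem_weightedHomogeneousSubmodule]
  apply isWeightedHomogeneous_monomial
  have hw : Finsupp.weight (wt a b) d = (u, v + 1) := by rw [weight_wt, h1, h2]
  rw [← hd', map_add, Finsupp.weight_single] at hw
  have h3 := congrArg Prod.fst hw
  have h4 := congrArg Prod.snd hw
  simp [wt] at h3 h4
  apply Prod.ext
  · show (Finsupp.weight (wt a b) e).1 = u
    have e1 : (Finsupp.weight (wt a b) e).1 = ((Finsupp.weight (Sum.elim (fun _ => ((1 : ℕ), (0 : ℕ))) fun _ => ((0 : ℕ), (1 : ℕ)))) e).1 := rfl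
    omega
  · show (Finsupp.weight (wt a b) e).2 = v
    have e1 : (Finsupp.weight (wt a b) e).2 = ((Finsupp.weight (Sum.elim (fun _ => ((1 : ℕ), (0 : ℕ))) fun _ => ((0 : ℕ), (1 : ℕ)))) e).2 := rfl
    omega

theorem bh_add (u v u' v' : ℕ) : bh a b (u + u') (v + v') = bh a b u v * bh a b u' v' := by
  apply le_antisymm
  · have h1 : ∀ v : ℕ, bh a b (0 + u') (v + v') ≤ bh a b 0 v * bh a b u' v' := by
      intro v
      induction v with
      | zero =>
        intro f hf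
        rw [zero_add, zero_add] at hf
        have := Submodule.mul_mem_mul (C_mem (a := a) (b := b) 1) hf
        rwa [C_1, one_mul] at this
      | succ v ih =>
        have e1 : v + 1 + v' = (v + v') + 1 := by ring
        rw [e1]
        refine bh_succ_right.trans ?_
        refine (mul_le_mul' le_rfl ih).trans ?_
        rw [← mul_assoc]
        refine mul_le_mul' ?_ le_rfl
        rw [Submodule.mul_le]
        intro x hx y hy
        have := bh_mul hx hy
        rwa [zero_add, add_comm 1 v] at this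
    induction u with
    | zero => exact h1 v
    | succ u ih =>
      have e1 : u + 1 + u' = (u + u') + 1 := by ring
      rw [e1]
      refine bh_succ_left.trans ?_
      refine (mul_le_mul' le_rfl ih).trans ?_
      rw [← mul_assoc]
      refine mul_le_mul' ?_ le_rfl
      rw [Submodule.mul_le]
      intro x hx y hy
      have := bh_mul hx hy
      rwa [zero_add, add_comm 1 u] at this
  · rw [Submodule.mul_le]
    exact fun x hx y hy => bh_mul hx hy

theorem finite_bh (u v : ℕ) : Module.Finite ℂ (bh a b u v) := by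
  have hle : bh a b u v ≤ restrictTotalDegree (Ix a b) ℂ (u + v) := by
    intro f hf
    rw [mem_restrictTotalDegree]
    refine Finset.sup_le fun d hd => ?_
    obtain ⟨h1, h2⟩ := mem_bh.1 hf d (mem_support_iff.1 hd)
    rw [Finsupp.sum_fintype _ _ (fun _ => rfl), Fintype.sum_sum_type, h1, h2]
  exact Submodule.finiteDimensional_of_le hle

/-- the ideal of the chart `x_i = y_j = 1` of the whole space -/
noncomputable def ch0 (i₀ : Fin (a + 1)) (j₀ : Fin (b + 1)) : Ideal (Co a b) :=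
  Ideal.span {X (Sum.inl i₀) - 1, X (Sum.inr j₀) - 1}

theorem chart_eq (i₀ : Fin (a + 1)) (j₀ : Fin (b + 1)) (P : Ideal (Co a b)) : chart i₀ j₀ P = P ⊔ ch0 i₀ j₀ := rfl

variable {i₀ : Fin (a + 1)} {j₀ : Fin (b + 1)}

theorem x_mem_ch0 : (X (Sum.inl i₀) - 1 : Co a b) ∈ ch0 i₀ j₀ := Ideal.subset_span (Or.inl rfl)
theorem y_mem_ch0 : (X (Sum.inr j₀) - 1 : Co a b) ∈ ch0 i₀ j₀ := Ideal.subset_span (Or.inr rfl)

/-- bihomogenisation -/
theorem hz (i₀ : Fin (a + 1)) (j₀ : Fin (b + 1)) (f : Co a b) :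
    ∃ T : ℕ, ∀ u ≥ T, ∀ v ≥ T, ∃ F ∈ bh a b u v, F - f ∈ ch0 i₀ j₀ := by
  induction f using MvPolynomial.induction_on with
  | C c =>
    refine ⟨0, fun u _ v _ => ⟨C c * (X (Sum.inl i₀) ^ u * X (Sum.inr j₀) ^ v), ?_, ?_⟩⟩
    · have h1 := bh_mul (C_mem (a := a) (b := b) c)
        (bh_mul (pow_mem_bh (X0_mem (a := a) (b := b) i₀) u) (pow_mem_bh (Y0_mem (a := a) (b := b) j₀) v))
      simpa using h1
    · have h1 : (X (Sum.inl i₀) ^ u - 1 : Co a b) ∈ ch0 i₀ j₀ := by
        obtain ⟨g, hg⟩ := sub_one_dvd_pow_sub_one (X (Sum.inl i₀) : Co a b) u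
        rw [hg]; exact Ideal.mul_mem_right _ _ x_mem_ch0
      have h2 : (X (Sum.inr j₀) ^ v - 1 : Co a b) ∈ ch0 i₀ j₀ := by
        obtain ⟨g, hg⟩ := sub_one_dvd_pow_sub_one (X (Sum.inr j₀) : Co a b) v
        rw [hg]; exact Ideal.mul_mem_right _ _ y_mem_ch0
      have e : (C c * (X (Sum.inl i₀) ^ u * X (Sum.inr j₀) ^ v) - C c : Co a b) =
          C c * X (Sum.inr j₀) ^ v * (X (Sum.inl i₀) ^ u - 1) + C c * (X (Sum.inr j₀) ^ v - 1) := by ring
      rw [e]
      exact add_mem (Ideal.mul_mem_left _ _ h1) (Ideal.mul_mem_left _ _ h2)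
  | add p q hp hq =>
    obtain ⟨T1, h1⟩ := hp
    obtain ⟨T2, h2⟩ := hq
    refine ⟨T1 + T2, fun u hu v hv => ?_⟩
    obtain ⟨F, hF, hF'⟩ := h1 u (by omega) v (by omega)
    obtain ⟨G, hG, hG'⟩ := h2 u (by omega) v (by omega)
    refine ⟨F + G, add_mem hF hG, ?_⟩
    have : F + G - (p + q) = (F - p) + (G - q) := by ring
    rw [this]; exact add_mem hF' hG'
  | mul_X p i hp =>
    obtain ⟨T1, h1⟩ := hp
    refine ⟨T1 + 1, fun u hu v hv => ?_⟩
    rcases i with i | i
    · obtain ⟨F, hF, hF'⟩ := h1 (u - 1) (by omega) v (by omega)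
      refine ⟨F * X (Sum.inl i), ?_, ?_⟩
      · have := bh_mul hF (X0_mem (a := a) (b := b) i)
        rwa [Nat.sub_add_cancel (by omega), add_zero] at this
      · have : F * X (Sum.inl i) - p * X (Sum.inl i) = (F - p) * X (Sum.inl i) := by ring
        rw [this]; exact Ideal.mul_mem_right _ _ hF'
    · obtain ⟨F, hF, hF'⟩ := h1 u (by omega) (v - 1) (by omega)
      refine ⟨F * X (Sum.inr i), ?_, ?_⟩
      · have := bh_mul hF (Y0_mem (a := a) (b := b) i)
        rwa [Nat.sub_add_cancel (by omega), add_zero] at this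
      · have : F * X (Sum.inr i) - p * X (Sum.inr i) = (F - p) * X (Sum.inr i) := by ring
        rw [this]; exact Ideal.mul_mem_right _ _ hF'

/-- the chart map `x_k ↦ x_k / x_i`, `y_l ↦ y_l / y_j` -/
noncomputable def chi (i₀ : Fin (a + 1)) (j₀ : Fin (b + 1)) (Q : Ideal (Co a b)) [Q.IsPrime] :
    Co a b →ₐ[ℂ] KK Q :=
  aeval (Sum.elim (fun i => (im Q (X (Sum.inl i₀)))⁻¹ * im Q (X (Sum.inl i)))
    (fun j => (im Q (X (Sum.inr j₀)))⁻¹ * im Q (X (Sum.inr j))) : Ix a b → KK Q)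

theorem im_eq (Q : Ideal (Co a b)) (f : Co a b) : aeval (fun i => im Q (X i)) f = im Q f := by
  have : (aeval (fun i => im Q (X i)) : Co a b →ₐ[ℂ] KK Q) = im Q := by
    apply MvPolynomial.algHom_ext
    intro i
    rw [aeval_X]
  rw [this]

theorem im_zero (Q : Ideal (Co a b)) [Q.IsPrime] {f : Co a b} : im Q f = 0 ↔ f ∈ Q := by
  unfold im
  rw [AlgHom.comp_apply]
  have : (IsScalarTower.toAlgHom ℂ (Co a b ⧸ Q) (KK Q)) ((Ideal.Quotient.mkₐ ℂ Q) f) =
    algebraMap (Co a b ⧸ Q) (KK Q) (Ideal.Quotient.mk Q f) := rfl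
  rw [this, map_eq_zero_iff _ (IsFractionRing.injective (Co a b ⧸ Q) (KK Q)), Ideal.Quotient.eq_zero_iff_mem]

theorem chi_bh (Q : Ideal (Co a b)) [Q.IsPrime] {u v : ℕ} {f : Co a b} (hf : f ∈ bh a b u v) :
    chi i₀ j₀ Q f = (im Q (X (Sum.inl i₀)))⁻¹ ^ u * (im Q (X (Sum.inr j₀)))⁻¹ ^ v * im Q f := by
  rw [chi, ← im_eq Q f]
  exact aeval_scale (fun i => im Q (X i)) _ _ hf

theorem chi_zero (Q : Ideal (Co a b)) [Q.IsPrime] (hx : X (Sum.inl i₀) ∉ Q) (hy : X (Sum.inr j₀) ∉ Q) {u v : ℕ}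
    {f : Co a b} (hf : f ∈ bh a b u v) : chi i₀ j₀ Q f = 0 ↔ f ∈ Q := by
  have h1 : im Q (X (Sum.inl i₀)) ≠ 0 := fun h => hx ((im_zero Q).1 h)
  have h2 : im Q (X (Sum.inr j₀)) ≠ 0 := fun h => hy ((im_zero Q).1 h)
  rw [chi_bh Q hf, ← im_zero Q]
  constructor
  · intro h
    exact (mul_eq_zero.1 h).resolve_left
      (mul_ne_zero (pow_ne_zero _ (inv_ne_zero h1)) (pow_ne_zero _ (inv_ne_zero h2)))
  · intro h; rw [h, mul_zero]

theorem sum_comp (f : Co a b) : ∃ s : Finset (ℕ × ℕ), ∑ m ∈ s, weightedHomogeneousComponent (wt a b) m f = f := by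
  classical
  refine ⟨(weightedHomogeneousComponent_finsupp (w := wt a b) f).toFinset, ?_⟩
  conv_rhs => rw [← sum_weightedHomogeneousComponent (wt a b) f]
  rw [finsum_eq_sum _ (weightedHomogeneousComponent_finsupp f)]

theorem chart_eq_ker (Q : Ideal (Co a b)) [Q.IsPrime] (hQ : BHom Q) (hx : X (Sum.inl i₀) ∉ Q)
    (hy : X (Sum.inr j₀) ∉ Q) : chart i₀ j₀ Q = RingHom.ker (chi i₀ j₀ Q) := by
  have h1 : im Q (X (Sum.inl i₀)) ≠ 0 := fun h => hx ((im_zero Q).1 h)
  have h2 : im Q (X (Sum.inr j₀)) ≠ 0 := fun h => hy ((im_zero Q).1 h)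
  have hch0 : ch0 i₀ j₀ ≤ RingHom.ker (chi i₀ j₀ Q) := by
    unfold ch0
    rw [Ideal.span_le]
    rintro f (rfl | rfl)
    · show chi i₀ j₀ Q (X (Sum.inl i₀) - 1) = 0
      rw [map_sub, map_one, chi, aeval_X, Sum.elim_inl, inv_mul_cancel₀ h1, sub_self]
    · show chi i₀ j₀ Q (X (Sum.inr j₀) - 1) = 0
      rw [map_sub, map_one, chi, aeval_X, Sum.elim_inr, inv_mul_cancel₀ h2, sub_self]
  rw [chart_eq]
  apply le_antisymm
  · refine sup_le ?_ hch0
    intro f hf
    obtain ⟨s, hs⟩ := sum_comp f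
    rw [RingHom.mem_ker, ← hs, map_sum]
    refine Finset.sum_eq_zero fun m _ => ?_
    have hm : weightedHomogeneousComponent (wt a b) m f ∈ bh a b m.1 m.2 := by
      unfold bh
      rw [mem_weightedHomogeneousSubmodule]
      exact weightedHomogeneousComponent_isWeightedHomogeneous m f
    exact (chi_zero Q hx hy hm).2 (hQ f hf m)
  · intro f hf
    rw [RingHom.mem_ker] at hf
    obtain ⟨T, hT⟩ := hz i₀ j₀ f
    obtain ⟨F, hF, hFf⟩ := hT T le_rfl T le_rfl
    have h3 : chi i₀ j₀ Q F = 0 := by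
      have : F = (F - f) + f := by ring
      rw [this, map_add, hf, add_zero]
      exact hch0 hFf
    have h4 := (chi_zero Q hx hy hF).1 h3
    have : f = F - (F - f) := by ring
    rw [this]
    exact sub_mem (Ideal.mem_sup_left h4) (Ideal.mem_sup_right hFf)

theorem chart_prime (Q : Ideal (Co a b)) (hp : Q.IsPrime) (hQ : BHom Q) (hx : X (Sum.inl i₀) ∉ Q)
    (hy : X (Sum.inr j₀) ∉ Q) : (chart i₀ j₀ Q).IsPrime := by
  haveI := hp
  rw [chart_eq_ker Q hQ hx hy]
  exact RingHom.ker_isPrime _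

/-- a bihomogeneous polynomial in the chart ideal is in the ideal -/
theorem mem_of_mem_chart (Q : Ideal (Co a b)) (hp : Q.IsPrime) (hQ : BHom Q) (hx : X (Sum.inl i₀) ∉ Q)
    (hy : X (Sum.inr j₀) ∉ Q) {u v : ℕ} {f : Co a b} (hf : f ∈ bh a b u v) (h : f ∈ chart i₀ j₀ Q) : f ∈ Q := by
  haveI := hp
  rw [chart_eq_ker Q hQ hx hy, RingHom.mem_ker] at h
  exact (chi_zero Q hx hy hf).1 h

end Pool.Agent.TH880.N4
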