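import Pool.Agent.TH880.N4.Bi
import Pool.Agent.TH306.N4.Defs
import Pool.Agent.W601.Curve.Main

/-! S6 of N4: the curve inequality for the sections of `m L`. -/

set_option autoImplicit false

open MvPolynomial Filter Topology

namespace Pool.Agent.TH880.N4

open Pool.Agent.TH279.GR Pool.Agent.TH306.N4 Pool.Agent.W601.Curve

variable {a b : ℕ}

theorem finrank_map_congr {R V W1 W2 : Type*} [Field R] [AddCommGroup V] [Module R V] [AddCommGroup W1]
    [Module R W1] [AddCommGroup W2] [Module R W2] (S : Submodule R V) [Module.Finite R S] (L1 : V →ₗ[R] W1)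
    (L2 : V →ₗ[R] W2) (h : ∀ x ∈ S, L1 x = 0 ↔ L2 x = 0) :
    Module.finrank R (S.map L1) = Module.finrank R (S.map L2) := by
  have e1 := LinearMap.finrank_range_add_finrank_ker (L1.domRestrict S)
  have e2 := LinearMap.finrank_range_add_finrank_ker (L2.domRestrict S)
  have e3 : LinearMap.ker (L1.domRestrict S) = LinearMap.ker (L2.domRestrict S) := by
    ext ⟨x, hx⟩
    rw [LinearMap.mem_ker, LinearMap.mem_ker]
    exact h x hx
  rw [LinearMap.range_domRestrict] at e1 e2
  rw [e3] at e1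
  omega

theorem finrank_quot (R : Type) [CommRing R] [Algebra ℂ R] (J m : Ideal R) :
    Module.finrank ℂ ((R ⧸ J) ⧸ m.map (Ideal.Quotient.mk J)) = Module.finrank ℂ (R ⧸ (J ⊔ m)) :=
  (DoubleQuot.quotQuotEquivQuotSupₐ ℂ J m).toLinearEquiv.finrank_eq

theorem finite_quot' (R : Type) [CommRing R] [Algebra ℂ R] (J m : Ideal R) (h : Module.Finite ℂ (R ⧸ (J ⊔ m))) :
    Module.Finite ℂ ((R ⧸ J) ⧸ m.map (Ideal.Quotient.mk J)) :=
  Module.Finite.equiv (DoubleQuot.quotQuotEquivQuotSupₐ ℂ J m).toLinearEquiv.symm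

theorem coprime_map {R : Type} [CommRing R] (J m m' : Ideal R) (h : IsCoprime m m') :
    IsCoprime (m.map (Ideal.Quotient.mk J)) (m'.map (Ideal.Quotient.mk J)) := by
  rw [Ideal.isCoprime_iff_sup_eq] at h ⊢
  rw [← Ideal.map_sup, h, Ideal.map_top]

/-- the multiplicity is `0` if the lengths are bounded -/
theorem mult_zero {f : ℕ → ℕ} {c : ℕ} (h : ∀ K, f K ≤ c) {μ : ℝ}
    (hμ : Tendsto (fun K : ℕ => (f K : ℝ) / K) atTop (𝓝 μ)) : μ = 0 := by
  refine tendsto_nhds_unique hμ ?_
  refine squeeze_zero (fun K => by positivity) (fun K => ?_) (tendsto_const_div_atTop_nhds_zero_nat (c : ℝ))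
  exact div_le_div_of_nonneg_right (by exact_mod_cast h K) (Nat.cast_nonneg _)

section
variable {i : Fin (a + 1)} {j : Fin (b + 1)}

/-- the filtration of the coordinate ring of a curve -/
theorem biFil (Q : Ideal (Co a b)) [IsDomain (Co a b ⧸ chart i j Q)] :
    BiFil ℂ (fun u v => (bh a b u v).map (Ideal.Quotient.mkₐ ℂ (chart i j Q)).toLinearMap) where
  fin u v := by
    have := finite_bh (a := a) (b := b) u v
    exact Module.Finite.map _ _
  mul u v u' v' := by
    rw [bh_add, Submodule.map_mul]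
  one0 := by
    refine ⟨X (Sum.inl i), X0_mem i, ?_⟩
    show Ideal.Quotient.mk (chart i j Q) (X (Sum.inl i)) = 1
    rw [← map_one (Ideal.Quotient.mk (chart i j Q)), Ideal.Quotient.eq]
    exact Ideal.mem_sup_right (x_mem_ch0 (j₀ := j))
  one1 := by
    refine ⟨X (Sum.inr j), Y0_mem j, ?_⟩
    show Ideal.Quotient.mk (chart i j Q) (X (Sum.inr j)) = 1
    rw [← map_one (Ideal.Quotient.mk (chart i j Q)), Ideal.Quotient.eq]
    exact Ideal.mem_sup_right (y_mem_ch0 (i₀ := i))
  ex f := by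
    obtain ⟨f, rfl⟩ := Ideal.Quotient.mk_surjective f
    obtain ⟨T, hT⟩ := hz i j f
    obtain ⟨F, hF, hFf⟩ := hT T le_rfl T le_rfl
    refine ⟨T, T, F, hF, ?_⟩
    show Ideal.Quotient.mk (chart i j Q) F = Ideal.Quotient.mk (chart i j Q) f
    rw [Ideal.Quotient.eq]
    exact Ideal.mem_sup_right hFf

/-- **S6**: the curve inequality. -/
theorem s6 (P : Ideal (Co a b)) (i : Fin (a + 1)) (j : Fin (b + 1)) {FF : Type} [Field FF] [Algebra ℂ FF]
    (π : Co a b →ₐ[ℂ] FF) (hM : Mod P i j π) (n m s : ℕ) (hs : 1 ≤ s) (w : Fin n → Ix a b → ℂ)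
    (_hw : Tuple i j P w) (hinj : Function.Injective w)
    (hsep : SepV (chart i j P) (fun F => Sec π m (π F)) s w) (Q : Ideal (Co a b)) (dA dB : ℝ) (hPQ : P ≤ Q)
    (hQ : Curv Q dA dB) (hnef : dB ≤ dA) (μ : Fin n → ℝ) (hμ : ∀ q, IsMult i j Q (w q) (μ q)) :
    ((s : ℝ) - 1) * ∑ q, μ q ≤ m * (dA - dB) := by
  classical
  have hR0 : 0 ≤ (m : ℝ) * (dA - dB) := mul_nonneg (Nat.cast_nonneg _) (by linarith)
  obtain ⟨J, hJ⟩ : ∃ J, J = chart i j Q := ⟨_, rfl⟩
  have hfinJ : ∀ q K, Module.Finite ℂ (Co a b ⧸ (J ⊔ (mx (w q)) ^ K)) :=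
    fun q K => finite_quot_of_le (w q) K _ le_sup_right
  have hall0 : (∀ q, μ q = 0) → ((s : ℝ) - 1) * ∑ q, μ q ≤ m * (dA - dB) := by
    intro h
    simp only [h, Finset.sum_const_zero, mul_zero]
    exact hR0
  by_cases htop : J = ⊤
  · apply hall0
    intro q
    refine mult_zero (c := 0) (fun K => ?_) (hμ q)
    have : Subsingleton (Co a b ⧸ (chart i j Q ⊔ (mx (w q)) ^ K)) := by
      rw [Ideal.Quotient.subsingleton_iff, ← hJ, htop, top_sup_eq]
    exact (Module.finrank_zero_of_subsingleton).le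
  have hx : X (Sum.inl i) ∉ Q := by
    intro h
    apply htop
    rw [hJ, Ideal.eq_top_iff_one]
    have h1 : (X (Sum.inl i) - 1 : Co a b) ∈ chart i j Q := Ideal.mem_sup_right (x_mem_ch0 (j₀ := j))
    have h2 : (X (Sum.inl i) : Co a b) ∈ chart i j Q := Ideal.mem_sup_left h
    have := sub_mem h2 h1
    rwa [sub_sub_cancel] at this
  have hy : X (Sum.inr j) ∉ Q := by
    intro h
    apply htop
    rw [hJ, Ideal.eq_top_iff_one]
    have h1 : (X (Sum.inr j) - 1 : Co a b) ∈ chart i j Q := Ideal.mem_sup_right (y_mem_ch0 (i₀ := i))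
    have h2 : (X (Sum.inr j) : Co a b) ∈ chart i j Q := Ideal.mem_sup_left h
    have := sub_mem h2 h1
    rwa [sub_sub_cancel] at this
  have hprime : (chart i j Q).IsPrime := chart_prime Q hQ.prime hQ.hom hx hy
  have hdom : IsDomain (Co a b ⧸ chart i j Q) := Ideal.Quotient.isDomain _
  have hIJ : chart i j P ≤ J := by rw [hJ]; exact sup_le_sup hPQ le_rfl
  rcases Nat.eq_or_lt_of_le hs with h1s | hs2
  · rw [← h1s]; simpa using hR0
  obtain ⟨k, rfl⟩ : ∃ k, s = k + 1 := ⟨s - 1, by omega⟩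
  have hk : 1 ≤ k := by omega
  by_cases hG : ∃ F : Co a b, Sec π m (π F) ∧ F ∉ J ∧ ∀ q, F ∈ J ⊔ (mx (w q)) ^ k
  · obtain ⟨F, hFS, hFJ, hFk⟩ := hG
    obtain ⟨c, hc⟩ := hFS
    rw [hJ] at hFJ hFk hIJ hfinJ
    have hB := biFil (i := i) (j := j) Q
    have hgr : ∀ p q : ℕ, 1 ≤ p → 1 ≤ q → Tendsto (fun t : ℕ => (Module.finrank ℂ
        ((bh a b (p * t) (q * t)).map (Ideal.Quotient.mkₐ ℂ (chart i j Q)).toLinearMap) : ℝ) / (t : ℝ)) atTop
        (𝓝 (dA * p + dB * q)) := by
      intro p q hp hq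
      refine (hQ.growth p q hp hq).congr fun t => ?_
      have hfb := finite_bh (a := a) (b := b) (p * t) (q * t)
      have e : hf Q (p * t) (q * t) = Module.finrank ℂ
        ((bh a b (p * t) (q * t)).map (Ideal.Quotient.mkₐ ℂ (chart i j Q)).toLinearMap) := by
        unfold hf
        refine finrank_map_congr _ _ _ fun f hf' => ?_
        show Ideal.Quotient.mk Q f = 0 ↔ Ideal.Quotient.mk (chart i j Q) f = 0
        rw [Ideal.Quotient.eq_zero_iff_mem, Ideal.Quotient.eq_zero_iff_mem]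
        exact ⟨fun h => Ideal.mem_sup_left h, fun h => mem_of_mem_chart Q hQ.prime hQ.hom hx hy hf' h⟩
      rw [e]
    have hcore := curve_core hB (α := dA) (β := dB) hgr
      (fun q : Fin n => (mx (w q)).map (Ideal.Quotient.mk (chart i j Q)))
      (fun q K => by
        rw [← Ideal.map_pow]
        exact finite_quot' _ _ _ (hfinJ q K))
      (fun q q' hqq => coprime_map _ _ _ (coprime_mw (w q) (w q') (fun h => hqq (hinj h))))
      (G := Ideal.Quotient.mk (chart i j Q) F) (fun h => hFJ (Ideal.Quotient.eq_zero_iff_mem.1 h))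
      (k := k) (m := m) (u0 := c) (v0 := c)
      (fun q => by
        rw [← Ideal.map_pow]
        obtain ⟨y, hy', z, hz', hyz⟩ := Submodule.mem_sup.1 (hFk q)
        have e : Ideal.Quotient.mk (chart i j Q) F = Ideal.Quotient.mk (chart i j Q) z := by
          rw [Ideal.Quotient.eq, ← hyz, add_sub_cancel_right]; exact hy'
        rw [e]
        exact Ideal.mem_map_of_mem _ hz')
      (fun f hf' => by
        obtain ⟨f, hf', rfl⟩ := hf'
        obtain ⟨f', hf'', hff⟩ := hc (π f) ⟨f, hf', rfl⟩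
        refine ⟨f', hf'', ?_⟩
        show Ideal.Quotient.mk (chart i j Q) f' = Ideal.Quotient.mk (chart i j Q) F * Ideal.Quotient.mk (chart i j Q) f
        rw [← map_mul, Ideal.Quotient.eq]
        apply hIJ
        rw [← hM.ker, map_sub, map_mul]
        have : π f' = π F * π f := hff
        rw [this, sub_self])
    have hcore' : ∀ t : ℕ, ∑ q, (Module.finrank ℂ (Co a b ⧸ (chart i j Q ⊔ (mx (w q)) ^ (k * t))) : ℝ) ≤
        (dA - dB) * (m * t) := by
      intro t
      have h1 := hcore t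
      push_cast at h1
      refine le_trans (le_of_eq ?_) h1
      refine Finset.sum_congr rfl fun q _ => ?_
      rw [← Ideal.map_pow, finrank_quot]
    have hkr : (0 : ℝ) < k := by exact_mod_cast hk
    have hsub : Tendsto (fun t : ℕ => k * t) atTop atTop := tendsto_atTop_mono (f := fun t => t) (fun t => by
      show t ≤ k * t
      nlinarith) tendsto_id
    have hL : Tendsto (fun t : ℕ => ∑ q, (Module.finrank ℂ (Co a b ⧸ (chart i j Q ⊔ (mx (w q)) ^ (k * t))) : ℝ) /
        ((k * t : ℕ) : ℝ)) atTop (𝓝 (∑ q, μ q)) := tendsto_finsetSum _ fun q _ => (hμ q).comp hsub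
    have hle : ∑ q, μ q ≤ (dA - dB) * m / k := by
      refine le_of_tendsto hL ?_
      filter_upwards [eventually_gt_atTop 0] with t ht
      have ht' : (0 : ℝ) < t := by exact_mod_cast ht
      have h1 := hcore' t
      rw [← Finset.sum_div, div_le_div_iff₀ (by positivity) hkr]
      push_cast at h1 ⊢
      nlinarith [mul_le_mul_of_nonneg_right h1 hkr.le]
    rw [le_div_iff₀ hkr] at hle
    push_cast
    linarith
  · push Not at hG
    apply hall0
    intro q
    have hle : (mx (w q)) ^ k ≤ J ⊔ (mx (w q)) ^ (k + 1) := by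
      intro g hg
      obtain ⟨F, hFh, hFg, hFq⟩ := hsep q g
      have hFg' : F - g ∈ J ⊔ (mx (w q)) ^ (k + 1) := (sup_le_sup hIJ le_rfl) hFg
      have hFP : F ∈ J := by
        by_contra hFP
        obtain ⟨q', hq'⟩ := hG F hFh hFP
        apply hq'
        have hmono : ∀ q, J ⊔ (mx (w q)) ^ (k + 1) ≤ J ⊔ (mx (w q)) ^ k := fun q =>
          sup_le_sup le_rfl (Ideal.pow_le_pow_right (Nat.le_succ k))
        by_cases hqq : q' = q
        · subst hqq
          have : F = (F - g) + g := by ring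
          rw [this]
          exact add_mem (hmono _ hFg') (Ideal.mem_sup_right hg)
        · exact hmono _ ((sup_le_sup hIJ le_rfl) (hFq q' hqq))
      have : g = F - (F - g) := by ring
      rw [this]
      exact sub_mem (Ideal.mem_sup_left hFP) hFg'
    refine mult_zero (c := Module.finrank ℂ (Co a b ⧸ (J ⊔ (mx (w q)) ^ k))) (fun K => ?_) (hμ q)
    rw [← hJ]
    exact finrank_mono (sup_le le_sup_left (pow_le_sup J (mx (w q)) k hle K)) (hfinJ q k)

end

end Pool.Agent.TH880.N4
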