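import Pool.Agent.TH880.N4.U2
import Pool.Agent.TH306.N4.StmtsV

/-! V0, V2 of N4: sections of `m A - p B`. -/

set_option autoImplicit false

open MvPolynomial Filter Topology

namespace Pool.Agent.TH880.N4

open Pool.Agent.TH279.GR Pool.Agent.TH306.N4

variable {a b : ℕ} {FF : Type} [Field FF] [Algebra ℂ FF] {π : Co a b →ₐ[ℂ] FF}

/-- twisting -/
theorem Sec_all2 {m p c : ℕ} {ψ : FF} (h : ∀ f ∈ TT π c (c + p), ψ * f ∈ TT π (c + m) c) {u v : ℕ} (hu : c ≤ u)
    (hv : c ≤ v) : ∀ f ∈ TT π u (v + p), ψ * f ∈ TT π (u + m) v := by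
  obtain ⟨d, rfl⟩ := Nat.exists_eq_add_of_le hu
  obtain ⟨e, rfl⟩ := Nat.exists_eq_add_of_le hv
  intro f hf
  have e1 : c + e + p = (c + p) + e := by ring
  have e2 : c + d + m = (c + m) + d := by ring
  rw [e1, TT_add] at hf
  rw [e2, TT_add]
  induction hf using Submodule.mul_induction_on' with
  | mem_mul_mem x hx y hy =>
    rw [← mul_assoc]
    exact Submodule.mul_mem_mul (h x hx) hy
  | add x _ y _ hx hy =>
    rw [mul_add]
    exact add_mem hx hy

/-- **V0**. -/
theorem v0 : V0 := by
  intro a b P i j FF _ _ π hM m p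
  refine ⟨fun ψ => ⟨fun h => ?_, fun h => Submodule.subset_span h⟩, ?_⟩
  · let S : Submodule ℂ FF :=
      { carrier := {ψ | Sec2 π m p ψ}
        add_mem' := by
          rintro ψ ψ' ⟨c, hc⟩ ⟨c', hc'⟩
          refine ⟨c + c', fun f hf => ?_⟩
          rw [add_mul]
          exact add_mem (Sec_all2 hc (by omega) (by omega) f hf) (Sec_all2 hc' (by omega) (by omega) f hf)
        zero_mem' := ⟨0, fun f _ => by rw [zero_mul]; exact zero_mem _⟩
        smul_mem' := by
          rintro z ψ ⟨c, hc⟩
          refine ⟨c, fun f hf => ?_⟩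
          rw [smul_mul_assoc]
          exact Submodule.smul_mem _ _ (hc f hf) }
    have hle : SecM2 π m p ≤ S := Submodule.span_le.2 fun ψ hψ => hψ
    exact hle h
  · rintro ψ ⟨c, hc⟩
    have h1 := hc 1 (one_mem_TT hM _ _)
    rw [mul_one] at h1
    obtain ⟨F, -, hF⟩ := h1
    exact ⟨F, hF⟩

theorem divI2_cp {P : Ideal (Co a b)} {i : Fin (a + 1)} {j : Fin (b + 1)} (hM : Mod P i j π) {m p : ℕ} {F : Co a b}
    {f : Co a b} (hf : f ∈ divI2 P π m p F) :
    (∀ u v, π (cp (u + m, v) f) ∈ WW π (π F) u (v + p)) ∧ ∀ u v, u < m → π (cp (u, v) f) = 0 := by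
  obtain ⟨p₀, hp, y, hy, rfl⟩ := Submodule.mem_sup.1 hf
  have hp1 : ∀ k, π (cp k p₀) = 0 := fun k => (hM.ker _).2 (Ideal.mem_sup_left (hM.hom p₀ hp k))
  have key : (∀ u v, π (cp (u + m, v) y) ∈ WW π (π F) u (v + p)) ∧ ∀ u v, u < m → π (cp (u, v) y) = 0 := by
    clear hf
    induction hy using Submodule.span_induction with
    | mem x hx =>
      obtain ⟨u', v', hx', g, hg, hxg⟩ := hx
      constructor
      · intro u v
        rw [cp_of_mem hx']
        split_ifs with h
        · rw [Prod.mk.injEq] at h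
          obtain ⟨h1, h2⟩ := h
          have h3 : u = u' := by omega
          subst h3 h2
          exact mem_WW.2 ⟨g, hg, hxg⟩
        · rw [map_zero]; exact zero_mem _
      · intro u v hu
        rw [cp_of_mem hx', if_neg, map_zero]
        rw [Prod.mk.injEq]
        rintro ⟨h1, -⟩
        omega
    | zero =>
      constructor
      · intro u v
        unfold cp
        rw [map_zero, map_zero]; exact zero_mem _
      · intro u v _
        unfold cp
        rw [map_zero, map_zero]
    | add x y _ _ hx hy =>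
      constructor
      · intro u v
        have h1 := hx.1 u v
        have h2 := hy.1 u v
        unfold cp at h1 h2 ⊢
        rw [map_add, map_add]; exact add_mem h1 h2
      · intro u v h
        have h1 := hx.2 u v h
        have h2 := hy.2 u v h
        unfold cp at h1 h2 ⊢
        rw [map_add, map_add, h1, h2, add_zero]
    | smul r x _ hx =>
      constructor
      · intro u v
        show π (cp (u + m, v) (r * x)) ∈ WW π (π F) u (v + p)
        have := cp_mul_mem ((WW π (π F) u (v + p)).comap π.toLinearMap) r x (u + m, v) ?_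
        · exact this
        · rintro ⟨k1, k2⟩ ⟨l1, l2⟩ hkl
          rw [Prod.mk_add_mk, Prod.mk.injEq] at hkl
          obtain ⟨e1, e2⟩ := hkl
          show π (cp (k1, k2) r * cp (l1, l2) x) ∈ WW π (π F) u (v + p)
          rw [map_mul]
          by_cases hl : l1 < m
          · rw [hx.2 l1 l2 hl, mul_zero]; exact zero_mem _
          · obtain ⟨u', rfl⟩ := Nat.exists_eq_add_of_le (not_lt.1 hl)
            have h1 := hx.1 u' l2
            rw [add_comm u' m] at h1
            obtain ⟨g, hg, hgx⟩ := mem_WW.1 h1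
            rw [hgx]
            refine mem_WW.2 ⟨cp (k1, k2) r * g, ?_, by rw [map_mul]; ring⟩
            have h2 := bh_mul (cp_mem (k1, k2) r) hg
            have h3 : k1 + u' = u := by omega
            have h4 : k2 + (l2 + p) = v + p := by omega
            simp only at h2
            rwa [h3, h4] at h2
      · intro u v hu
        show π (cp (u, v) (r * x)) = 0
        have := cp_mul_mem ((⊥ : Submodule ℂ FF).comap π.toLinearMap) r x (u, v) ?_
        · exact this
        · rintro ⟨k1, k2⟩ ⟨l1, l2⟩ hkl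
          rw [Prod.mk_add_mk, Prod.mk.injEq] at hkl
          obtain ⟨e1, e2⟩ := hkl
          show π (cp (k1, k2) r * cp (l1, l2) x) = 0
          rw [map_mul, hx.2 l1 l2 (by omega), mul_zero]
  constructor
  · intro u v
    have h1 := hp1 (u + m, v)
    have h2 := key.1 u v
    unfold cp at h1 h2 ⊢
    rw [map_add, map_add, h1, zero_add]; exact h2
  · intro u v h
    have h1 := hp1 (u, v)
    have h2 := key.2 u v h
    unfold cp at h1 h2 ⊢
    rw [map_add, map_add, h1, h2, zero_add]

theorem mem_divI2_iff {P : Ideal (Co a b)} {i : Fin (a + 1)} {j : Fin (b + 1)} (hM : Mod P i j π) {m p : ℕ}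
    {F : Co a b} {u v : ℕ} {f : Co a b} (hf : f ∈ bh a b (u + m) v) :
    f ∈ divI2 P π m p F ↔ π f ∈ WW π (π F) u (v + p) := by
  constructor
  · intro h
    have h1 := (divI2_cp hM h).1 u v
    rwa [cp_of_mem hf, if_pos rfl] at h1
  · intro h
    obtain ⟨g, hg, hfg⟩ := mem_WW.1 h
    exact Ideal.mem_sup_right (Ideal.subset_span ⟨u, v, hf, g, hg, hfg⟩)

/-- **V2**. -/
theorem v2 : V2 := by
  intro a b P i j FF _ _ π hM m p F hsec hF
  obtain ⟨c, hc⟩ := hsec
  -- a form with the image `π F`
  obtain ⟨G, hG, hGF⟩ : ∃ G ∈ bh a b (c + m) c, π G = π F := by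
    have h1 := hc 1 (one_mem_TT hM _ _)
    rw [mul_one] at h1
    obtain ⟨G, hG, hGF⟩ := h1
    exact ⟨G, hG, hGF⟩
  have hGdiv : G ∈ divI2 P π m p F := by
    rw [mem_divI2_iff hM hG, hGF]
    obtain ⟨g, hg, hg1⟩ := one_mem_TT hM c (c + p)
    refine mem_WW.2 ⟨g, hg, ?_⟩
    have : π g = 1 := hg1
    rw [this, mul_one]
  have hle : P ≤ divI2 P π m p F := le_sup_left
  refine ⟨?_, ?_, ?_, c, ?_⟩
  · refine bhom_sup hM.hom (bhom_span _ ?_)
    rintro f ⟨u, v, hf, -⟩
    exact ⟨u + m, v, hf⟩
  · refine lt_of_le_of_ne hle fun h => hF ?_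
    rw [← h] at hGdiv
    rw [← hGF]
    exact (hM.ker G).2 (Ideal.mem_sup_left hGdiv)
  · apply le_antisymm
    · unfold chart divI2
      refine sup_le (sup_le ?_ ?_) ?_
      · exact le_sup_of_le_left le_sup_left
      · rw [Ideal.span_le]
        rintro f ⟨u, v, -, g, -, hfg⟩
        have h1 : f - F * g ∈ chart i j P := by
          rw [← hM.ker, map_sub, map_mul, hfg, sub_self]
        have h2 : f = (f - F * g) + F * g := by ring
        rw [h2]
        exact add_mem (Ideal.mem_sup_left h1)
          (Ideal.mem_sup_right (Ideal.mul_mem_right _ _ (Ideal.subset_span rfl)))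
      · exact le_sup_of_le_left le_sup_right
    · refine sup_le (sup_le_sup_right hle _) ?_
      rw [Ideal.span_le, Set.singleton_subset_iff]
      have h1 : G - F ∈ chart i j P := by
        rw [← hM.ker, map_sub, hGF, sub_self]
      have h0 : G ∈ chart i j (divI2 P π m p F) := Ideal.mem_sup_left hGdiv
      have h0' : chart i j P ≤ chart i j (divI2 P π m p F) := sup_le_sup_right hle _
      have h2 := sub_mem h0 (h0' h1)
      rwa [sub_sub_cancel] at h2
  · intro u v hu hv
    have hWT : WW π (π F) u (v + p) ≤ TT π (u + m) v := by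
      rintro _ ⟨z, hz', rfl⟩
      exact Sec_all2 hc hu hv z hz'
    have := finite_bh (a := a) (b := b) (u + m) v
    have : Module.Finite ℂ (TT π (u + m) v) := Module.Finite.map _ _
    have e1 := finrank_map_mkQ (TT π (u + m) v) (WW π (π F) u (v + p)) hWT
    have e2 : Module.finrank ℂ (WW π (π F) u (v + p)) = hf P u (v + p) := by
      rw [hf_eq hM]
      unfold WW
      exact (LinearEquiv.finrank_eq (Submodule.equivMapOfInjective (LinearMap.mulLeft ℂ (π F))
        (fun x y h => mul_left_cancel₀ hF h) _)).symm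
    have e3 : hf (divI2 P π m p F) (u + m) v =
        Module.finrank ℂ ((TT π (u + m) v).map (WW π (π F) u (v + p)).mkQ) := by
      have e4 : (TT π (u + m) v).map (WW π (π F) u (v + p)).mkQ =
          (bh a b (u + m) v).map ((WW π (π F) u (v + p)).mkQ ∘ₗ π.toLinearMap) := by
        unfold TT
        rw [Submodule.map_comp]
      rw [e4]
      unfold hf
      refine finrank_map_congr _ _ _ fun f hf' => ?_
      show Ideal.Quotient.mk (divI2 P π m p F) f = 0 ↔ (WW π (π F) u (v + p)).mkQ (π f) = 0
      rw [Ideal.Quotient.eq_zero_iff_mem, Submodule.mkQ_apply, Submodule.Quotient.mk_eq_zero, mem_divI2_iff hM hf']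
    rw [e3, ← e2, e1, hf_eq hM]

end Pool.Agent.TH880.N4
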