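import Mathlib

/-! M6 of N4: the curve inequality, abstract form. -/

set_option autoImplicit false

open Filter Topology

namespace Pool.Agent.TH880.N4

section
variable {F A : Type*} [Field F] [CommRing A] [IsDomain A] [Algebra F A]

/-- The bigraded pieces of the (dehomogenised) coordinate ring of a curve. -/
structure BiFil (F : Type*) {A : Type*} [Field F] [CommRing A] [IsDomain A] [Algebra F A]
    (O : ℕ → ℕ → Submodule F A) : Prop where
  fin : ∀ u v, Module.Finite F (O u v)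
  mul : ∀ u v u' v', O (u + u') (v + v') = O u v * O u' v'
  one0 : (1 : A) ∈ O 1 0
  one1 : (1 : A) ∈ O 0 1
  ex : ∀ f : A, ∃ u v, f ∈ O u v

variable {O : ℕ → ℕ → Submodule F A}

theorem BiFil.mono (h : BiFil F O) {u v u' v' : ℕ} (hu : u ≤ u') (hv : v ≤ v') : O u v ≤ O u' v' := by
  have h0 : ∀ u v, O u v ≤ O (u + 1) v := by
    intro u v x hx
    have := Submodule.mul_mem_mul hx h.one0
    rw [mul_one, ← h.mul] at this
    exact this
  have h1 : ∀ u v, O u v ≤ O u (v + 1) := by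
    intro u v x hx
    have := Submodule.mul_mem_mul hx h.one1
    rw [mul_one, ← h.mul] at this
    exact this
  have a0 : ∀ d u v, O u v ≤ O (u + d) v := by
    intro d
    induction d with
    | zero => intro u v; exact le_rfl
    | succ d ih => intro u v; exact (ih u v).trans (h0 _ _)
  have a1 : ∀ d u v, O u v ≤ O u (v + d) := by
    intro d
    induction d with
    | zero => intro u v; exact le_rfl
    | succ d ih => intro u v; exact (ih u v).trans (h1 _ _)
  obtain ⟨d, rfl⟩ := Nat.exists_eq_add_of_le hu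
  obtain ⟨e, rfl⟩ := Nat.exists_eq_add_of_le hv
  exact (a0 d u v).trans (a1 e _ _)

/-- multiplication by a twisted function -/
theorem BiFil.twist (h : BiFil F O) {G : A} {m u0 v0 : ℕ} (hG : ∀ f ∈ O u0 (v0 + m), G * f ∈ O (u0 + m) v0)
    {u v : ℕ} (hu : u0 ≤ u) (hv : v0 ≤ v) : ∀ f ∈ O u (v + m), G * f ∈ O (u + m) v := by
  obtain ⟨d, rfl⟩ := Nat.exists_eq_add_of_le hu
  obtain ⟨e, rfl⟩ := Nat.exists_eq_add_of_le hv
  intro f hf
  have e1 : v0 + e + m = (v0 + m) + e := by ring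
  have e2 : u0 + d + m = (u0 + m) + d := by ring
  rw [e1, h.mul] at hf
  rw [e2, h.mul]
  induction hf using Submodule.mul_induction_on' with
  | mem_mul_mem x hx y hy =>
    rw [← mul_assoc]
    exact Submodule.mul_mem_mul (hG x hx) hy
  | add x _ y _ hx hy =>
    rw [mul_add]
    exact add_mem hx hy

theorem BiFil.twist_pow (h : BiFil F O) {G : A} {m u0 v0 : ℕ} (hG : ∀ f ∈ O u0 (v0 + m), G * f ∈ O (u0 + m) v0)
    (t : ℕ) : ∀ {u v : ℕ}, u0 ≤ u → v0 ≤ v → ∀ f ∈ O u (v + m * t), G ^ t * f ∈ O (u + m * t) v := by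
  induction t with
  | zero => intro u v _ _ f hf; simpa using hf
  | succ t ih =>
    intro u v hu hv f hf
    have e1 : v + m * (t + 1) = (v + m * t) + m := by ring
    have e2 : u + m * (t + 1) = (u + m) + m * t := by ring
    rw [e1] at hf
    rw [e2, pow_succ, mul_assoc]
    exact ih (by omega) hv _ (h.twist hG hu (by omega) f hf)

/-- the step -/
theorem BiFil.step (h : BiFil F O) {ι : Type*} [Fintype ι] (K : ι → Ideal A)
    (hfinK : ∀ q, Module.Finite F (A ⧸ K q)) (hcop : Pairwise fun q q' => IsCoprime (K q) (K q'))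
    {G : A} (hG0 : G ≠ 0) (hGK : ∀ q, G ∈ K q) {D u0 v0 : ℕ}
    (hG : ∀ u v, u0 ≤ u → v0 ≤ v → ∀ f ∈ O u (v + D), G * f ∈ O (u + D) v) :
    ∃ T0, ∀ u ≥ T0, ∀ v ≥ T0, (∑ q, Module.finrank F (A ⧸ K q)) + Module.finrank F (O u (v + D)) ≤
      Module.finrank F (O (u + D) v) := by
  classical
  let Ψ : A →ₗ[F] (∀ q, A ⧸ K q) := LinearMap.pi (fun q => (Ideal.Quotient.mkₐ F (K q)).toLinearMap)
  have hΨ : ∀ f q, Ψ f q = Ideal.Quotient.mk (K q) f := fun f q => rfl
  obtain ⟨k, b, hb⟩ := Module.Finite.exists_fin (R := F) (M := ∀ q, A ⧸ K q)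
  have hlift : ∀ i, ∃ r : A, ∀ q, Ideal.Quotient.mk (K q) r = b i q :=
    fun i => Ideal.pi_quotient_surjective hcop (b i)
  choose r hr using hlift
  choose ru rv hruv using fun i => h.ex (r i)
  obtain ⟨T1, hT1⟩ : ∃ T1 : ℕ, ∀ i, ru i ≤ T1 ∧ rv i ≤ T1 := by
    refine ⟨(Finset.univ.sup ru) + (Finset.univ.sup rv), fun i => ⟨?_, ?_⟩⟩
    · have := Finset.le_sup (f := ru) (Finset.mem_univ i); omega
    · have := Finset.le_sup (f := rv) (Finset.mem_univ i); omega
  refine ⟨T1 + u0 + v0, fun u hu v hv => ?_⟩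
  have f1 := h.fin (u + D) v
  have f2 := h.fin u (v + D)
  let Φ : O (u + D) v →ₗ[F] (∀ q, A ⧸ K q) := Ψ.domRestrict (O (u + D) v)
  have hsurj : LinearMap.range Φ = ⊤ := by
    rw [eq_top_iff, ← hb, Submodule.span_le]
    rintro _ ⟨i, rfl⟩
    refine ⟨⟨r i, h.mono (by have := (hT1 i).1; omega) (by have := (hT1 i).2; omega) (hruv i)⟩, ?_⟩
    funext q
    exact hr i q
  have e1 := LinearMap.finrank_range_add_finrank_ker Φ
  rw [hsurj, finrank_top, Module.finrank_pi_fintype] at e1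
  have hm1 : ∀ x : O u (v + D), ((LinearMap.mulLeft F G).domRestrict (O u (v + D))) x ∈ O (u + D) v := by
    rintro ⟨x, hx⟩
    exact hG u v (by omega) (by omega) x hx
  let ν1 : O u (v + D) →ₗ[F] O (u + D) v :=
    LinearMap.codRestrict (O (u + D) v) ((LinearMap.mulLeft F G).domRestrict (O u (v + D))) hm1
  have hm2 : ∀ x : O u (v + D), ν1 x ∈ LinearMap.ker Φ := by
    rintro ⟨x, hx⟩
    rw [LinearMap.mem_ker]
    funext q
    show Ideal.Quotient.mk (K q) (G * x) = 0
    rw [Ideal.Quotient.eq_zero_iff_mem]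
    exact Ideal.mul_mem_right _ _ (hGK q)
  let ν : O u (v + D) →ₗ[F] LinearMap.ker Φ := LinearMap.codRestrict (LinearMap.ker Φ) ν1 hm2
  have hνinj : Function.Injective ν := by
    intro x y hxy
    have h1 : G * (x : A) = G * (y : A) :=
      congrArg (fun z : LinearMap.ker Φ => ((z : O (u + D) v) : A)) hxy
    exact Subtype.ext (mul_left_cancel₀ hG0 h1)
  have e2 : Module.finrank F (O u (v + D)) ≤ Module.finrank F (LinearMap.ker Φ) :=
    LinearMap.finrank_le_finrank_of_injective hνinj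
  omega

/-- numerical consequence of the steps -/
theorem num_step {h : ℕ → ℕ → ℕ} {α β : ℝ}
    (hh : ∀ p q : ℕ, 1 ≤ p → 1 ≤ q →
      Tendsto (fun t : ℕ => (h (p * t) (q * t) : ℝ) / (t : ℝ)) atTop (𝓝 (α * p + β * q)))
    {D S T0 : ℕ} (hs : ∀ u ≥ T0, ∀ v ≥ T0, S + h u (v + D) ≤ h (u + D) v) :
    (S : ℝ) ≤ (α - β) * D := by
  have chain : ∀ j v : ℕ, T0 ≤ v → ∀ u : ℕ, T0 ≤ u → j * S + h u (v + j * D) ≤ h (u + j * D) v := by
    intro j v hv
    induction j with
    | zero => intro u _; simp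
    | succ j ih =>
      intro u hu
      have h1 := hs u (by omega) (v + j * D) (by omega)
      have h2 := ih (u + D) (by omega)
      have e1 : v + (j + 1) * D = v + j * D + D := by ring
      have e2 : u + (j + 1) * D = u + D + j * D := by ring
      have e3 : (j + 1) * S = j * S + S := by ring
      rw [e1, e2, e3]
      omega
  have l1 := hh (1 + D) 1 (by omega) le_rfl
  have l2 := hh 1 (1 + D) le_rfl (by omega)
  have l3 := l1.sub l2
  have hval : α * ((1 + D : ℕ) : ℝ) + β * ((1 : ℕ) : ℝ) - (α * ((1 : ℕ) : ℝ) + β * ((1 + D : ℕ) : ℝ)) =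
      (α - β) * D := by push_cast; ring
  rw [hval] at l3
  refine ge_of_tendsto l3 ?_
  filter_upwards [eventually_ge_atTop (max 1 T0)] with j hj
  have hj1 : 1 ≤ j := (le_max_left _ _).trans hj
  have hjT : T0 ≤ j := (le_max_right _ _).trans hj
  have hj0 : (0 : ℝ) < j := by exact_mod_cast hj1
  have h1 := chain j j hjT j hjT
  have e1 : (1 + D) * j = j + j * D := by ring
  rw [e1, one_mul, ← sub_div, le_div_iff₀ hj0]
  have h2 : (j : ℝ) * S + h j (j + j * D) ≤ h (j + j * D) j := by exact_mod_cast h1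
  linarith

/-- **the curve inequality**, abstract form -/
theorem curve_core (h : BiFil F O) {α β : ℝ}
    (hh : ∀ p q : ℕ, 1 ≤ p → 1 ≤ q →
      Tendsto (fun t : ℕ => (Module.finrank F (O (p * t) (q * t)) : ℝ) / (t : ℝ)) atTop
        (𝓝 (α * p + β * q)))
    {ι : Type*} [Fintype ι] (M : ι → Ideal A) (hfin : ∀ q j, Module.Finite F (A ⧸ (M q) ^ j))
    (hcop : Pairwise fun q q' => IsCoprime (M q) (M q'))
    {G : A} (hG0 : G ≠ 0) {k m u0 v0 : ℕ} (hGM : ∀ q, G ∈ (M q) ^ k)
    (hG : ∀ f ∈ O u0 (v0 + m), G * f ∈ O (u0 + m) v0) (t : ℕ) :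
    ((∑ q, Module.finrank F (A ⧸ (M q) ^ (k * t)) : ℕ) : ℝ) ≤ (α - β) * (m * t : ℕ) := by
  obtain ⟨T0, hT0⟩ := h.step (fun q => (M q) ^ (k * t)) (fun q => hfin q _)
    (fun q q' hqq => (hcop hqq).pow) (G := G ^ t) (pow_ne_zero _ hG0)
    (fun q => by rw [pow_mul]; exact Ideal.pow_mem_pow (hGM q) t) (D := m * t) (u0 := u0) (v0 := v0)
    (fun u v hu hv f hf => h.twist_pow hG t hu hv f hf)
  exact num_step (h := fun u v => Module.finrank F (O u v)) hh hT0

end

end Pool.Agent.TH880.N4
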