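import Pool.Agent.TH880.N4.S0
import Pool.Agent.TH880.N4.S6
import Pool.Agent.TH306.N4.StmtsU

/-! U2 of N4: the bihomogeneous ideal of the divisor of a section. -/

set_option autoImplicit false

open MvPolynomial Filter Topology

namespace Pool.Agent.TH880.N4

open Pool.Agent.TH279.GR Pool.Agent.TH306.N4

variable {a b : ℕ}

/-- the component of bidegree `m` -/
noncomputable abbrev cp (m : ℕ × ℕ) (f : Co a b) : Co a b := weightedHomogeneousComponent (wt a b) m f

theorem cp_mem (m : ℕ × ℕ) (f : Co a b) : cp m f ∈ bh a b m.1 m.2 :=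
  weightedHomogeneousComponent_mem (wt a b) f m

theorem cp_of_mem {u v : ℕ} {f : Co a b} (hf : f ∈ bh a b u v) (m : ℕ × ℕ) :
    cp m f = if m = (u, v) then f else 0 :=
  weightedHomogeneousComponent_of_mem hf

theorem cp_mul_mem (W : Submodule ℂ (Co a b)) (h x : Co a b) (m : ℕ × ℕ)
    (H : ∀ k l, k + l = m → cp k h * cp l x ∈ W) : cp m (h * x) ∈ W := by
  obtain ⟨s, hs⟩ := sum_comp h
  obtain ⟨t, ht⟩ := sum_comp x
  have e : cp m (h * x) = ∑ k ∈ s, ∑ l ∈ t, cp m (cp k h * cp l x) := by
    conv_lhs => rw [← hs, ← ht, Finset.sum_mul]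
    unfold cp
    rw [map_sum]
    refine Finset.sum_congr rfl fun k _ => ?_
    rw [Finset.mul_sum, map_sum]
  rw [e]
  refine Submodule.sum_mem _ fun k _ => Submodule.sum_mem _ fun l _ => ?_
  have h1 := bh_mul (cp_mem k h) (cp_mem l x)
  rw [cp_of_mem h1]
  split_ifs with h2
  · refine H k l ?_
    rw [h2]
    exact Prod.ext rfl rfl
  · exact zero_mem _

theorem bhom_span (S : Set (Co a b)) (hS : ∀ f ∈ S, ∃ u v, f ∈ bh a b u v) : BHom (Ideal.span S) := by
  intro f hf
  induction hf using Submodule.span_induction with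
  | mem x hx =>
    intro m
    obtain ⟨u, v, h⟩ := hS x hx
    have := cp_of_mem h m
    unfold cp at this
    rw [this]
    split_ifs
    · exact Ideal.subset_span hx
    · exact zero_mem _
  | zero => intro m; rw [map_zero]; exact zero_mem _
  | add x y _ _ hx hy => intro m; rw [map_add]; exact add_mem (hx m) (hy m)
  | smul r x _ hx =>
    intro m
    exact cp_mul_mem ((Ideal.span S).restrictScalars ℂ) r x m fun k l _ => Ideal.mul_mem_left _ _ (hx l)

theorem bhom_sup {I J : Ideal (Co a b)} (hI : BHom I) (hJ : BHom J) : BHom (I ⊔ J) := by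
  intro f hf m
  obtain ⟨x, hx, y, hy, rfl⟩ := Submodule.mem_sup.1 hf
  rw [map_add]
  exact add_mem (Ideal.mem_sup_left (hI x hx m)) (Ideal.mem_sup_right (hJ y hy m))

variable {FF : Type} [Field FF] [Algebra ℂ FF] {π : Co a b →ₐ[ℂ] FF}

theorem finrank_map_mkQ {R V : Type*} [Field R] [AddCommGroup V] [Module R V] (T W : Submodule R V)
    [Module.Finite R T] (h : W ≤ T) :
    Module.finrank R (T.map W.mkQ) + Module.finrank R W = Module.finrank R T := by
  have e1 := LinearMap.finrank_range_add_finrank_ker (W.mkQ.domRestrict T)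
  rw [LinearMap.range_domRestrict] at e1
  have e2 : LinearMap.ker (W.mkQ.domRestrict T) = W.comap T.subtype := by
    ext x; simp
  rw [e2, (Submodule.comapSubtypeEquivOfLe h).finrank_eq] at e1
  exact e1

theorem pi_zero {P : Ideal (Co a b)} {i : Fin (a + 1)} {j : Fin (b + 1)} (hM : Mod P i j π) {u v : ℕ}
    {f : Co a b} (hf : f ∈ bh a b u v) : π f = 0 ↔ f ∈ P := by
  constructor
  · intro h
    exact mem_of_mem_chart P hM.prime hM.hom hM.hi hM.hj hf ((hM.ker f).1 h)
  · intro h
    exact (hM.ker f).2 (Ideal.mem_sup_left h)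

theorem hf_eq {P : Ideal (Co a b)} {i : Fin (a + 1)} {j : Fin (b + 1)} (hM : Mod P i j π) (u v : ℕ) :
    hf P u v = Module.finrank ℂ (TT π u v) := by
  have := finite_bh (a := a) (b := b) u v
  unfold hf TT
  refine finrank_map_congr _ _ _ fun f hf' => ?_
  show Ideal.Quotient.mk P f = 0 ↔ π f = 0
  rw [Ideal.Quotient.eq_zero_iff_mem, pi_zero hM hf']

/-- the multiples of `ψ` -/
noncomputable def WW (π : Co a b →ₐ[ℂ] FF) (ψ : FF) (u v : ℕ) : Submodule ℂ FF :=
  (TT π u v).map (LinearMap.mulLeft ℂ ψ)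

theorem mem_WW {ψ z : FF} {u v : ℕ} : z ∈ WW π ψ u v ↔ ∃ g ∈ bh a b u v, z = ψ * π g := by
  constructor
  · rintro ⟨_, ⟨g, hg, rfl⟩, rfl⟩
    exact ⟨g, hg, rfl⟩
  · rintro ⟨g, hg, rfl⟩
    exact ⟨π g, ⟨g, hg, rfl⟩, rfl⟩

theorem divI_cp {P : Ideal (Co a b)} {i : Fin (a + 1)} {j : Fin (b + 1)} (hM : Mod P i j π) {m : ℕ} {F : Co a b}
    {f : Co a b} (hf : f ∈ divI P π m F) :
    (∀ u v, π (cp (u + m, v) f) ∈ WW π (π F) u (v + m)) ∧ ∀ u v, u < m → π (cp (u, v) f) = 0 := by
  obtain ⟨p, hp, y, hy, rfl⟩ := Submodule.mem_sup.1 hf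
  have hp1 : ∀ k, π (cp k p) = 0 := fun k => (hM.ker _).2 (Ideal.mem_sup_left (hM.hom p hp k))
  have key : (∀ u v, π (cp (u + m, v) y) ∈ WW π (π F) u (v + m)) ∧ ∀ u v, u < m → π (cp (u, v) y) = 0 := by
    clear hf
    induction hy using Submodule.span_induction with
    | mem x hx =>
      obtain ⟨u', v', hx', g, hg, hxg⟩ := hx
      constructor
      · intro u v
        rw [cp_of_mem hx']
        split_ifs with h
        · rw [Prod.mk.injEq] at h
          obtain ⟨h1, h2⟩ := h
          have h3 : u = u' := by omega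
          subst h3 h2
          exact mem_WW.2 ⟨g, hg, hxg⟩
        · rw [map_zero]; exact zero_mem _
      · intro u v hu
        rw [cp_of_mem hx', if_neg, map_zero]
        rw [Prod.mk.injEq]
        rintro ⟨h1, -⟩
        omega
    | zero =>
      constructor
      · intro u v
        unfold cp
        rw [map_zero, map_zero]; exact zero_mem _
      · intro u v _
        unfold cp
        rw [map_zero, map_zero]
    | add x y _ _ hx hy =>
      constructor
      · intro u v
        have h1 := hx.1 u v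
        have h2 := hy.1 u v
        unfold cp at h1 h2 ⊢
        rw [map_add, map_add]; exact add_mem h1 h2
      · intro u v h
        have h1 := hx.2 u v h
        have h2 := hy.2 u v h
        unfold cp at h1 h2 ⊢
        rw [map_add, map_add, h1, h2, add_zero]
    | smul r x _ hx =>
      constructor
      · intro u v
        show π (cp (u + m, v) (r * x)) ∈ WW π (π F) u (v + m)
        have := cp_mul_mem ((WW π (π F) u (v + m)).comap π.toLinearMap) r x (u + m, v) ?_
        · exact this
        · rintro ⟨k1, k2⟩ ⟨l1, l2⟩ hkl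
          rw [Prod.mk_add_mk, Prod.mk.injEq] at hkl
          obtain ⟨e1, e2⟩ := hkl
          show π (cp (k1, k2) r * cp (l1, l2) x) ∈ WW π (π F) u (v + m)
          rw [map_mul]
          by_cases hl : l1 < m
          · rw [hx.2 l1 l2 hl, mul_zero]; exact zero_mem _
          · obtain ⟨u', rfl⟩ := Nat.exists_eq_add_of_le (not_lt.1 hl)
            have h1 := hx.1 u' l2
            rw [add_comm u' m] at h1
            obtain ⟨g, hg, hgx⟩ := mem_WW.1 h1
            rw [hgx]
            refine mem_WW.2 ⟨cp (k1, k2) r * g, ?_, by rw [map_mul]; ring⟩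
            have h2 := bh_mul (cp_mem (k1, k2) r) hg
            have h3 : k1 + u' = u := by omega
            have h4 : k2 + (l2 + m) = v + m := by omega
            simp only at h2
            rwa [h3, h4] at h2
      · intro u v hu
        show π (cp (u, v) (r * x)) = 0
        have := cp_mul_mem ((⊥ : Submodule ℂ FF).comap π.toLinearMap) r x (u, v) ?_
        · exact this
        · rintro ⟨k1, k2⟩ ⟨l1, l2⟩ hkl
          rw [Prod.mk_add_mk, Prod.mk.injEq] at hkl
          obtain ⟨e1, e2⟩ := hkl
          show π (cp (k1, k2) r * cp (l1, l2) x) = 0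
          rw [map_mul, hx.2 l1 l2 (by omega), mul_zero]
  constructor
  · intro u v
    have h1 := hp1 (u + m, v)
    have h2 := key.1 u v
    unfold cp at h1 h2 ⊢
    rw [map_add, map_add, h1, zero_add]; exact h2
  · intro u v h
    have h1 := hp1 (u, v)
    have h2 := key.2 u v h
    unfold cp at h1 h2 ⊢
    rw [map_add, map_add, h1, h2, zero_add]

theorem mem_divI_iff {P : Ideal (Co a b)} {i : Fin (a + 1)} {j : Fin (b + 1)} (hM : Mod P i j π) {m : ℕ}
    {F : Co a b} {u v : ℕ} {f : Co a b} (hf : f ∈ bh a b (u + m) v) :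
    f ∈ divI P π m F ↔ π f ∈ WW π (π F) u (v + m) := by
  constructor
  · intro h
    have h1 := (divI_cp hM h).1 u v
    rwa [cp_of_mem hf, if_pos rfl] at h1
  · intro h
    obtain ⟨g, hg, hfg⟩ := mem_WW.1 h
    exact Ideal.mem_sup_right (Ideal.subset_span ⟨u, v, hf, g, hg, hfg⟩)

/-- **U2**. -/
theorem u2 : U2 := by
  intro a b P i j FF _ _ π hM m F hsec hF
  obtain ⟨c, hc⟩ := hsec
  -- a form with the image `π F`
  obtain ⟨G, hG, hGF⟩ : ∃ G ∈ bh a b (c + m) c, π G = π F := by
    have h1 := hc 1 (one_mem_TT hM _ _)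
    rw [mul_one] at h1
    obtain ⟨G, hG, hGF⟩ := h1
    exact ⟨G, hG, hGF⟩
  have hGdiv : G ∈ divI P π m F := by
    rw [mem_divI_iff hM hG, hGF]
    obtain ⟨g, hg, hg1⟩ := one_mem_TT hM c (c + m)
    refine mem_WW.2 ⟨g, hg, ?_⟩
    have : π g = 1 := hg1
    rw [this, mul_one]
  have hle : P ≤ divI P π m F := le_sup_left
  refine ⟨?_, ?_, ?_, c, ?_⟩
  · refine bhom_sup hM.hom (bhom_span _ ?_)
    rintro f ⟨u, v, hf, -⟩
    exact ⟨u + m, v, hf⟩
  · refine lt_of_le_of_ne hle fun h => hF ?_
    rw [← h] at hGdiv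
    rw [← hGF]
    exact (hM.ker G).2 (Ideal.mem_sup_left hGdiv)
  · apply le_antisymm
    · unfold chart divI
      refine sup_le (sup_le ?_ ?_) ?_
      · exact le_sup_of_le_left le_sup_left
      · rw [Ideal.span_le]
        rintro f ⟨u, v, -, g, -, hfg⟩
        have h1 : f - F * g ∈ chart i j P := by
          rw [← hM.ker, map_sub, map_mul, hfg, sub_self]
        have h2 : f = (f - F * g) + F * g := by ring
        rw [h2]
        exact add_mem (Ideal.mem_sup_left h1)
          (Ideal.mem_sup_right (Ideal.mul_mem_right _ _ (Ideal.subset_span rfl)))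
      · exact le_sup_of_le_left le_sup_right
    · refine sup_le (sup_le_sup_right hle _) ?_
      rw [Ideal.span_le, Set.singleton_subset_iff]
      have h1 : G - F ∈ chart i j P := by
        rw [← hM.ker, map_sub, hGF, sub_self]
      have h0 : G ∈ chart i j (divI P π m F) := Ideal.mem_sup_left hGdiv
      have h0' : chart i j P ≤ chart i j (divI P π m F) := sup_le_sup_right hle _
      have h2 := sub_mem h0 (h0' h1)
      rwa [sub_sub_cancel] at h2
  · intro u v hu hv
    have hWT : WW π (π F) u (v + m) ≤ TT π (u + m) v := by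
      rintro _ ⟨z, hz', rfl⟩
      exact Sec_all hc hu hv z hz'
    have := finite_bh (a := a) (b := b) (u + m) v
    have : Module.Finite ℂ (TT π (u + m) v) := Module.Finite.map _ _
    have e1 := finrank_map_mkQ (TT π (u + m) v) (WW π (π F) u (v + m)) hWT
    have e2 : Module.finrank ℂ (WW π (π F) u (v + m)) = hf P u (v + m) := by
      rw [hf_eq hM]
      unfold WW
      exact (LinearEquiv.finrank_eq (Submodule.equivMapOfInjective (LinearMap.mulLeft ℂ (π F))
        (fun x y h => mul_left_cancel₀ hF h) _)).symm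
    have e3 : hf (divI P π m F) (u + m) v =
        Module.finrank ℂ ((TT π (u + m) v).map (WW π (π F) u (v + m)).mkQ) := by
      have e4 : (TT π (u + m) v).map (WW π (π F) u (v + m)).mkQ =
          (bh a b (u + m) v).map ((WW π (π F) u (v + m)).mkQ ∘ₗ π.toLinearMap) := by
        unfold TT
        rw [Submodule.map_comp]
      rw [e4]
      unfold hf
      refine finrank_map_congr _ _ _ fun f hf' => ?_
      show Ideal.Quotient.mk (divI P π m F) f = 0 ↔ (WW π (π F) u (v + m)).mkQ (π f) = 0
      rw [Ideal.Quotient.eq_zero_iff_mem, Submodule.mkQ_apply, Submodule.Quotient.mk_eq_zero, mem_divI_iff hM hf']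
    rw [e3, ← e2, e1, hf_eq hM]

end Pool.Agent.TH880.N4
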